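import Pool.Agent.H29.BE.XY

/-!
# Representations of `α_p(r,s)`: objects
-/

open CategoryTheory MonoidalCategory

universe v u

namespace Pool.Agent.H29.BE

/-- `f ^ n = 0`. -/
def PowZero {C : Type u} [Category.{v} C] [Preadditive C] {X : C} (f : End X) (n : ℕ) : Prop :=
  f ^ n = 0

/-- The relations `x y = y x`, `x^m = 0`, `y^n = 0`. -/
def Rels {C : Type u} [Category.{v} C] [Preadditive C] (m n : ℕ) (M : XY C) : Prop :=
  M.act 0 ≫ M.act 1 = M.act 1 ≫ M.act 0 ∧ PowZero (M.act 0) m ∧ PowZero (M.act 1) n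

/-- `M = (V, x, y)` is a finite-dimensional representation of `α_p(r,s)` over `k`: `x y = y x`,
`x^(p^r) = 0`, `y^(p^s) = 0`. -/
def IsAlpha (k : Type u) [Field k] (p r s : ℕ) : ObjectProperty (XY (FGModuleCat.{u} k)) :=
  Rels (p ^ r) (p ^ s)

end Pool.Agent.H29.BE
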