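import Pool.Agent.H29.BE.Alpha
import Pool.Agent.H29.BC.NeglTensor

/-!
# Tensor products of representations of `α_p(r,s)`
-/

open CategoryTheory MonoidalCategory
open scoped TensorProduct

universe v u

namespace Pool.Agent.H29.BE

section

variable {k : Type u} [Field k]

theorem pow_hom {V : FGModuleCat.{u} k} (a : End V) (n : ℕ) :
    (a ^ n).hom.hom = (a.hom.hom : Module.End k V) ^ n := by
  induction n with
  | zero => rfl
  | succ n ih =>
    rw [pow_succ, pow_succ, ← ih]
    rfl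

theorem end_ext {V : FGModuleCat.{u} k} {a b : End V} (h : a.hom.hom = b.hom.hom) : a = b :=
  ObjectProperty.hom_ext _ (ModuleCat.hom_ext h)

theorem pow_zero_iff {V : FGModuleCat.{u} k} (a : End V) (n : ℕ) :
    a ^ n = 0 ↔ (a.hom.hom : Module.End k V) ^ n = 0 := by
  rw [← pow_hom]
  constructor
  · intro h
    rw [h]
    rfl
  · intro h
    exact end_ext h

variable (p r s : ℕ)

theorem isAlpha_iff (M : XY (FGModuleCat.{u} k)) : IsAlpha k p r s M ↔
    ((M.act 0).hom.hom : Module.End k M.spc) * (M.act 1).hom.hom =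
      (M.act 1).hom.hom * (M.act 0).hom.hom ∧
    ((M.act 0).hom.hom : Module.End k M.spc) ^ p ^ r = 0 ∧
    ((M.act 1).hom.hom : Module.End k M.spc) ^ p ^ s = 0 := by
  refine and_congr ?_ (and_congr (pow_zero_iff _ _) (pow_zero_iff _ _))
  constructor
  · intro h
    exact (congrArg (fun f : M.spc ⟶ M.spc => f.hom.hom) h).symm
  · intro h
    exact ObjectProperty.hom_ext _ (ModuleCat.hom_ext h.symm)

variable (k) in
theorem act_unit (i : Fin 2) : ((𝟙_ (XY (FGModuleCat.{u} k))).act i).hom.hom = 0 := rfl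

theorem act_tensor (M N : XY (FGModuleCat.{u} k)) (i : Fin 2) : ((M ⊗ N).act i).hom.hom =
    BC.AlphaRep.sumOp (M.act i).hom.hom (N.act i).hom.hom := rfl

end

variable (k : Type u) [Field k] (p r s : ℕ) [CharP k p] [Fact p.Prime]

theorem alpha_unit_aux : IsAlpha k p r s (𝟙_ (XY (FGModuleCat.{u} k))) := by
  rw [isAlpha_iff, act_unit, act_unit]
  exact ⟨rfl, zero_pow (pow_ne_zero _ (Fact.out : p.Prime).ne_zero),
    zero_pow (pow_ne_zero _ (Fact.out : p.Prime).ne_zero)⟩

theorem alpha_tensor_aux (M N : XY (FGModuleCat.{u} k)) (hM : IsAlpha k p r s M)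
    (hN : IsAlpha k p r s N) : IsAlpha k p r s (M ⊗ N) := by
  rw [isAlpha_iff] at hM hN ⊢
  rw [act_tensor, act_tensor]
  exact ⟨BC.AlphaRep.sumOp_comm hM.1 hN.1, BC.AlphaRep.sumOp_pow p hM.2.1 hN.2.1,
    BC.AlphaRep.sumOp_pow p hM.2.2 hN.2.2⟩

end Pool.Agent.H29.BE
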