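import Pool.Agent.H29.BE.Obj

/-!
# Comparison with the other model of `rep(α_p(r,s))`
-/

open CategoryTheory MonoidalCategory
open scoped TensorProduct

universe u

namespace Pool.Agent.H29.BE

section conv

variable {k : Type u} [Field k] {p r s : ℕ}

/-- The operators. -/
def ac (M : ARep k p r s) (i : Fin 2) : sp M ⟶ sp M := XY.act (ObjectProperty.FullSubcategory.obj M) i

/-- Conversion of objects. -/
def old (M : ARep k p r s) : BC.AlphaRep k p r s where
  carrier := sp M
  x := (ac M 0).hom.hom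
  y := (ac M 1).hom.hom
  comm := ((isAlpha_iff p r s M.obj).1 M.property).1
  x_pow := ((isAlpha_iff p r s M.obj).1 M.property).2.1
  y_pow := ((isAlpha_iff p r s M.obj).1 M.property).2.2

theorem lin_comm {M N : ARep k p r s} (f : M ⟶ N) (i : Fin 2) :
    M.obj.act i ≫ lin f = lin f ≫ N.obj.act i :=
  XY.Mor.comm (InducedCategory.Hom.hom f) i

/-- Conversion of morphisms. -/
def oldHom {M N : ARep k p r s} (f : M ⟶ N) : old M ⟶ old N where
  lin := (lin f).hom.hom
  comm_x := congrArg (fun f : sp M ⟶ sp N => f.hom.hom) (lin_comm f 0)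
  comm_y := congrArg (fun f : sp M ⟶ sp N => f.hom.hom) (lin_comm f 1)

/-- Conversion of morphisms. -/
def newHom {M N : ARep k p r s} (f : old M ⟶ old N) : M ⟶ N :=
  ObjectProperty.homMk (P := IsAlpha k p r s) ⟨ObjectProperty.homMk (ModuleCat.ofHom f.lin), by
    intro i
    fin_cases i
    · exact ObjectProperty.hom_ext _ (ModuleCat.hom_ext f.comm_x)
    · exact ObjectProperty.hom_ext _ (ModuleCat.hom_ext f.comm_y)⟩

theorem oldHom_newHom {M N : ARep k p r s} (f : old M ⟶ old N) : oldHom (newHom f) = f := rfl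

theorem newHom_oldHom {M N : ARep k p r s} (f : M ⟶ N) : newHom (oldHom f) = f := rfl

theorem oldHom_comp {M N L : ARep k p r s} (f : M ⟶ N) (g : N ⟶ L) :
    oldHom (f ≫ g) = oldHom f ≫ oldHom g := rfl

theorem oldHom_id (M : ARep k p r s) : oldHom (𝟙 M) = 𝟙 (old M) := rfl

theorem tr_oldHom {M : ARep k p r s} (f : M ⟶ M) :
    tr k p r s M f = BC.AlphaRep.tr (oldHom f) := rfl

theorem negl_iff {M N : ARep k p r s} (f g : M ⟶ N) :
    Ngl (tr k p r s) f g ↔ BC.AlphaRep.Negligible (oldHom f - oldHom g) := by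
  constructor
  · intro h h'
    have h1 := h (newHom h')
    rw [tr_oldHom, tr_oldHom, oldHom_comp, oldHom_comp, oldHom_newHom] at h1
    rw [Preadditive.sub_comp, BC.AlphaRep.tr_sub, h1, sub_self]
  · intro h h'
    have h1 := h (oldHom h')
    rw [Preadditive.sub_comp, BC.AlphaRep.tr_sub, sub_eq_zero] at h1
    exact h1

variable [CharP k p] [Fact p.Prime]

theorem old_tensor (M N : ARep k p r s) : old (M ⊗ N) = old M ⊗ old N := rfl

theorem old_unit : old (𝟙_ (ARep k p r s)) = 𝟙_ (BC.AlphaRep k p r s) := rfl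

theorem oldHom_whiskerLeft (M : ARep k p r s) {N L : ARep k p r s} (f : N ⟶ L) :
    oldHom (M ◁ f) = old M ◁ oldHom f := rfl

theorem oldHom_whiskerRight (M : ARep k p r s) {N L : ARep k p r s} (f : N ⟶ L) :
    oldHom (f ▷ M) = oldHom f ▷ old M := rfl

end conv

/-- Negligible morphisms are stable under tensoring with an object. -/
theorem stab_aux (k : Type u) [Field k] (p r s : ℕ) [CharP k p] [Fact p.Prime] :
    Stab (Ngl (tr k p r s)) := Stab.of _ (fun X {Y Z} f g h => by
    rw [negl_iff] at h ⊢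
    have h1 : oldHom (X ◁ f) - oldHom (X ◁ g) = old X ◁ (oldHom f - oldHom g) :=
      ((tensorLeft (old X)).map_sub (f := oldHom f) (g := oldHom g)).symm
    rw [h1]
    exact BC.AlphaRep.Negligible.whiskerLeft (old X) h) (fun {Y Z} X f g h => by
    rw [negl_iff] at h ⊢
    have h1 : oldHom (f ▷ X) - oldHom (g ▷ X) = (oldHom f - oldHom g) ▷ old X :=
      ((tensorRight (old X)).map_sub (f := oldHom f) (g := oldHom g)).symm
    rw [h1]
    exact BC.AlphaRep.Negligible.whiskerRight (old X) h)

end Pool.Agent.H29.BE
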