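import Pool.Agent.H29.BE.Cnv

/-!
# The semisimplification of `rep(α_p(r,s))` and induced `p'`-symmetries
-/

open CategoryTheory MonoidalCategory

universe v u

namespace Pool.Agent.H29.BE

/-- The semisimplification of `rep(α_p(r,s))`: the quotient by the ideal of negligible
morphisms. -/
def Semi (k : Type u) [Field k] (p r s : ℕ) : Type (u + 1) := Quotient (Ngl (tr k p r s))

instance semiCat (k : Type u) [Field k] (p r s : ℕ) : Category.{u} (Semi k p r s) :=
  Quotient.category (Ngl (tr k p r s))

/-- Negligible morphisms are stable under tensoring with an object. -/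
theorem stab (k : Type u) [Field k] (p r s : ℕ) [CharP k p] [Fact p.Prime] :
    Stab (Ngl (tr k p r s)) := stab_aux k p r s

instance semiMon (k : Type u) [Field k] (p r s : ℕ) [CharP k p] [Fact p.Prime] :
    MonoidalCategory (Semi k p r s) := @Qt.qmon _ _ _ (Ngl (tr k p r s)) (stab k p r s)

instance semiBrd (k : Type u) [Field k] (p r s : ℕ) [CharP k p] [Fact p.Prime] :
    BraidedCategory (Semi k p r s) := @Qt.qbrd _ _ _ (Ngl (tr k p r s)) (stab k p r s) _

/-- Linear combinations of morphisms of representations. -/
def rcomb (k : Type u) [Field k] (p r s : ℕ) : Comb (ARep k p r s) k := fun M N c f g h =>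
  lcomb (FGModuleCat k) k (sp M) (sp N) c (lin f) (lin g) (lin h)

/-- Linear combinations of morphisms of the semisimplification. -/
def scomb (k : Type u) [Field k] (p r s : ℕ) : Comb (Semi k p r s) k :=
  qcomb (Ngl (tr k p r s)) (rcomb k p r s)

variable {k : Type u} [Field k] {p r s : ℕ}

/-- `𝒟(V)`: the full tensor subcategory of the semisimplification generated by the image of
`V`. -/
def DV [CharP k p] [Fact p.Prime] (V : ARep k p r s) : ObjectProperty (Semi k p r s) :=
  Gen (scomb k p r s) (CategoryTheory.Quotient.mk V)

theorem dv_unit [CharP k p] [Fact p.Prime] (V : ARep k p r s) :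
    DV V (𝟙_ (Semi k p r s)) := Gen.unit

theorem dv_tensor [CharP k p] [Fact p.Prime] (V : ARep k p r s) (A B : Semi k p r s)
    (hA : DV V A) (hB : DV V B) : DV V (A ⊗ B) := Gen.tensor A B hA hB

instance dvMon [CharP k p] [Fact p.Prime] (V : ARep k p r s) : (DV V).IsMonoidal where
  prop_unit := dv_unit V
  prop_tensor := dv_tensor V

/-- `V` is nonzero and its only idempotent endomorphisms are `0` and `1`. -/
def IsIndecomposable (V : ARep k p r s) : Prop :=
  Nontrivial (sp V) ∧ ∀ e : V ⟶ V, e ≫ e = e → lin e = 0 ∨ e = 𝟙 V

/-- `(C, G)` is an induced `p'`-symmetry of `V` with `z = 1`: `G` is a finite group of order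
prime to `p` and `C` is a full subcategory of `𝒟(V)`, closed under tensor products and containing
the unit, which is equivalent to `rep_k(G)` as a `k`-linear symmetric tensor category. -/
def IsInducedSymmetry [CharP k p] [Fact p.Prime] (V : ARep k p r s)
    (C : ObjectProperty (Semi k p r s)) [C.IsMonoidal] (G : Type) [Group G] : Prop :=
  IsSymmetry (scomb k p r s) p (DV V) C G

end Pool.Agent.H29.BE
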