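import Mathlib

/-!
# Linear combinations, negligible morphisms, generated subcategories

`Comb k C` is a notion of linear combination for the morphisms of a category `C`: a relation
`L X Y c f g h` which is to be read as `h = f + c • g`, for `f, g, h : X ⟶ Y` and `c` in `k`.
-/

open CategoryTheory MonoidalCategory

universe w v u v' u'

namespace Pool.Agent.H29.BE

section

variable {C : Type u} [Category.{v} C]

/-- `f - g` is negligible: `t (f ≫ h) = t (g ≫ h)` for all `h`, where `t` is the trace. -/
def Ngl {k : Type w} (t : ∀ X : C, (X ⟶ X) → k) : HomRel C := fun X Y f g =>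
  ∀ h : Y ⟶ X, t X (f ≫ h) = t X (g ≫ h)

/-- The class of a morphism in the quotient category. -/
def cl (r : HomRel C) {X Y : C} (f : X ⟶ Y) : (⟨X⟩ : Quotient r) ⟶ ⟨Y⟩ :=
  (Quotient.functor r).map f

/-- The image of an isomorphism in the quotient category. -/
def cI (r : HomRel C) {X Y : C} (f : X ≅ Y) : (⟨X⟩ : Quotient r) ≅ ⟨Y⟩ :=
  (Quotient.functor r).mapIso f

variable (k : Type w)

variable (C) in
/-- A notion of linear combination: `L X Y c f g h` means `h = f + c • g`. -/
def Comb : Type (max w v u) := ∀ X Y : C, k → (X ⟶ Y) → (X ⟶ Y) → (X ⟶ Y) → Prop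

variable (C) in
/-- Linear combinations in a `k`-linear category. -/
def lcomb [Field k] [Preadditive C] [Linear k C] : Comb C k := fun _ _ c f g h => h = f + c • g

variable {k}

/-- Linear combinations in a quotient category: linear combinations of representatives. -/
def qcomb (r : HomRel C) (L : Comb C k) : Comb (Quotient r) k := fun X Y c f g h =>
  ∃ f' g' h' : X.as ⟶ Y.as, cl r f' = f ∧ cl r g' = g ∧ cl r h' = h ∧ L X.as Y.as c f' g' h'

/-- `S` is the direct sum of `A` and `B`. -/
def IsSum [One k] (L : Comb C k) (A B S : C) : Prop :=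
  ∃ (i : A ⟶ S) (j : B ⟶ S) (p : S ⟶ A) (q : S ⟶ B),
    i ≫ p = 𝟙 A ∧ j ≫ q = 𝟙 B ∧ L S S 1 (p ≫ i) (q ≫ j) (𝟙 S)

/-- The functor `F` is `k`-linear. -/
def IsLin {D : Type u'} [Category.{v'} D] (L : Comb C k) (L' : Comb D k) (F : C ⥤ D) : Prop :=
  ∀ (X Y : C) (c : k) (f g h : X ⟶ Y), L X Y c f g h →
    L' (F.obj X) (F.obj Y) c (F.map f) (F.map g) (F.map h)

end

/-- The smallest class of objects which contains `V` and the unit and is closed under tensor
products, duals, direct sums and direct summands. -/
inductive Gen {C : Type u} [Category.{v} C] [MonoidalCategory C] {k : Type w} [One k]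
    (L : Comb C k) (V : C) : C → Prop
  | base : Gen L V V
  | unit : Gen L V (𝟙_ C)
  | tensor (A B : C) : Gen L V A → Gen L V B → Gen L V (A ⊗ B)
  | dual (A B : C) : Gen L V A → Nonempty (ExactPairing A B) → Gen L V B
  | sum (A B S : C) : Gen L V A → Gen L V B → IsSum L A B S → Gen L V S
  | summand {A B : C} (i : A ⟶ B) (q : B ⟶ A) : i ≫ q = 𝟙 A → Gen L V B → Gen L V A

/-- Let `S` be a `k`-linear symmetric tensor category and `D`, `C` full subcategories of `S`, where
`C` is closed under tensor products and contains the unit.  The property says that `C` is contained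
in `D`, that `G` is a finite group of order prime to `p`, and that there is an equivalence of
`k`-linear symmetric tensor categories from `rep_k(G)` to `C`. -/
structure IsSymmetry {k : Type w} [Field k] {S : Type u} [Category.{v} S] [MonoidalCategory S]
    [BraidedCategory S] (L : Comb S k) (p : ℕ) (D C : ObjectProperty S) [C.IsMonoidal] (G : Type)
    [Group G] : Prop where
  finite : Finite G
  coprime : (Nat.card G).Coprime p
  le : ∀ X, C X → D X
  equiv : ∃ (F : FDRep.{w} k G ⥤ C.FullSubcategory) (_ : F.Braided), F.IsEquivalence ∧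
    IsLin (lcomb (FDRep k G) k) L (F ⋙ C.ι)

end Pool.Agent.H29.BE
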