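import Mathlib

/-!
# The axioms of a (braided) tensor category as propositions
-/

open CategoryTheory MonoidalCategory

universe v u

namespace Pool.Agent.H29.BE

section

variable (C : Type u) [Category.{v} C] [MonoidalCategoryStruct C]

/-- Axiom of a tensor category. -/
def TensorHomDef : Prop := ∀ {X₁ Y₁ X₂ Y₂ : C} (f : X₁ ⟶ Y₁) (g : X₂ ⟶ Y₂),
  f ⊗ₘ g = f ▷ X₂ ≫ Y₁ ◁ g

/-- Axiom of a tensor category. -/
def TensorId : Prop := ∀ X₁ X₂ : C, 𝟙 X₁ ⊗ₘ 𝟙 X₂ = 𝟙 (X₁ ⊗ X₂)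

/-- Axiom of a tensor category. -/
def TensorComp : Prop := ∀ {X₁ Y₁ Z₁ X₂ Y₂ Z₂ : C} (f₁ : X₁ ⟶ Y₁) (f₂ : X₂ ⟶ Y₂)
  (g₁ : Y₁ ⟶ Z₁) (g₂ : Y₂ ⟶ Z₂), (f₁ ⊗ₘ f₂) ≫ (g₁ ⊗ₘ g₂) = (f₁ ≫ g₁) ⊗ₘ (f₂ ≫ g₂)

/-- Axiom of a tensor category. -/
def LeftId : Prop := ∀ X Y : C, X ◁ 𝟙 Y = 𝟙 (X ⊗ Y)

/-- Axiom of a tensor category. -/
def RightId : Prop := ∀ X Y : C, 𝟙 X ▷ Y = 𝟙 (X ⊗ Y)

/-- Axiom of a tensor category. -/
def AssocNat : Prop := ∀ {X₁ X₂ X₃ Y₁ Y₂ Y₃ : C} (f₁ : X₁ ⟶ Y₁) (f₂ : X₂ ⟶ Y₂) (f₃ : X₃ ⟶ Y₃),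
  ((f₁ ⊗ₘ f₂) ⊗ₘ f₃) ≫ (α_ Y₁ Y₂ Y₃).hom = (α_ X₁ X₂ X₃).hom ≫ (f₁ ⊗ₘ (f₂ ⊗ₘ f₃))

/-- Axiom of a tensor category. -/
def LeftNat : Prop := ∀ {X Y : C} (f : X ⟶ Y), 𝟙_ C ◁ f ≫ (λ_ Y).hom = (λ_ X).hom ≫ f

/-- Axiom of a tensor category. -/
def RightNat : Prop := ∀ {X Y : C} (f : X ⟶ Y), f ▷ 𝟙_ C ≫ (ρ_ Y).hom = (ρ_ X).hom ≫ f

/-- The pentagon axiom. -/
def Pentagon : Prop := ∀ W X Y Z : C, (α_ W X Y).hom ▷ Z ≫ (α_ W (X ⊗ Y) Z).hom ≫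
  W ◁ (α_ X Y Z).hom = (α_ (W ⊗ X) Y Z).hom ≫ (α_ W X (Y ⊗ Z)).hom

/-- The triangle axiom. -/
def Triangle : Prop := ∀ X Y : C, (α_ X (𝟙_ C) Y).hom ≫ X ◁ (λ_ Y).hom = (ρ_ X).hom ▷ Y

/-- The axioms of a tensor category. -/
structure Laws : Prop where
  tensorHomDef : TensorHomDef C
  tensorId : TensorId C
  tensorComp : TensorComp C
  leftId : LeftId C
  rightId : RightId C
  assocNat : AssocNat C
  leftNat : LeftNat C
  rightNat : RightNat C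
  pent : Pentagon C
  trian : Triangle C

variable {C} in
/-- The tensor category defined by data satisfying the axioms. -/
@[instance_reducible] def toMon (h : Laws C) : MonoidalCategory C where
  tensorHom_def := no_implicit_lambda% (@Laws.tensorHomDef C _ _ h)
  id_tensorHom_id := no_implicit_lambda% (@Laws.tensorId C _ _ h)
  tensorHom_comp_tensorHom := no_implicit_lambda% (@Laws.tensorComp C _ _ h)
  whiskerLeft_id := no_implicit_lambda% (@Laws.leftId C _ _ h)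
  id_whiskerRight := no_implicit_lambda% (@Laws.rightId C _ _ h)
  associator_naturality := no_implicit_lambda% (@Laws.assocNat C _ _ h)
  leftUnitor_naturality := no_implicit_lambda% (@Laws.leftNat C _ _ h)
  rightUnitor_naturality := no_implicit_lambda% (@Laws.rightNat C _ _ h)
  pentagon := no_implicit_lambda% (@Laws.pent C _ _ h)
  triangle := no_implicit_lambda% (@Laws.trian C _ _ h)

end

section

variable {C : Type u} [Category.{v} C] [MonoidalCategory C] (b : ∀ X Y : C, X ⊗ Y ≅ Y ⊗ X)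

/-- Naturality of the braiding. -/
def BraidRight : Prop :=
  ∀ (X : C) {Y Z : C} (f : Y ⟶ Z), X ◁ f ≫ (b X Z).hom = (b X Y).hom ≫ f ▷ X

/-- Naturality of the braiding. -/
def BraidLeft : Prop :=
  ∀ {X Y : C} (f : X ⟶ Y) (Z : C), f ▷ Z ≫ (b Y Z).hom = (b X Z).hom ≫ Z ◁ f

/-- The first hexagon axiom. -/
def Hexagon : Prop := ∀ X Y Z : C, (α_ X Y Z).hom ≫ (b X (Y ⊗ Z)).hom ≫ (α_ Y Z X).hom =
  (b X Y).hom ▷ Z ≫ (α_ Y X Z).hom ≫ Y ◁ (b X Z).hom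

/-- The second hexagon axiom. -/
def Hexagon' : Prop := ∀ X Y Z : C, (α_ X Y Z).inv ≫ (b (X ⊗ Y) Z).hom ≫ (α_ Z X Y).inv =
  X ◁ (b Y Z).hom ≫ (α_ X Z Y).inv ≫ (b X Z).hom ▷ Y

/-- The axioms of a braiding. -/
structure BLaws : Prop where
  natRight : BraidRight b
  natLeft : BraidLeft b
  hexF : Hexagon b
  hexR : Hexagon' b

variable {b} in
/-- The braiding defined by data satisfying the axioms. -/
@[instance_reducible] def toBrd (h : BLaws b) : BraidedCategory C where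
  braiding := b
  braiding_naturality_right := no_implicit_lambda% (@BLaws.natRight C _ _ b h)
  braiding_naturality_left := no_implicit_lambda% (@BLaws.natLeft C _ _ b h)
  hexagon_forward := no_implicit_lambda% (@BLaws.hexF C _ _ b h)
  hexagon_reverse := no_implicit_lambda% (@BLaws.hexR C _ _ b h)

end

end Pool.Agent.H29.BE
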