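import Pool.Agent.H29.BE.Tr3
import Pool.Agent.H29.BC.Final

/-!
# The generalized Benson conjecture fails for `α_3(1,1)`
-/

open CategoryTheory MonoidalCategory
open scoped TensorProduct

universe u

namespace Pool.Agent.H29.BE

open BC (AlphaRep D5 md theSys)

section Lift

universe v₁ v₂ u₁ u₂

variable {C : Type u₁} [Category.{v₁} C] [MonoidalCategory C] {D : Type u₂} [Category.{v₂} D]
  [MonoidalCategory D] (F : C ⥤ D) [F.Monoidal] (P : ObjectProperty D) [P.IsMonoidal]
  (h : ∀ X, P (F.obj X))

/-- A monoidal functor with values in a full tensor subcategory. -/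
noncomputable def liftCore : (P.lift F h).CoreMonoidal where
  εIso := P.isoMk (Functor.Monoidal.εIso F)
  μIso X Y := P.isoMk (Functor.Monoidal.μIso F X Y)
  μIso_hom_natural_left f U := ObjectProperty.hom_ext _ (Functor.LaxMonoidal.μ_natural_left F f U)
  μIso_hom_natural_right U f := ObjectProperty.hom_ext _ (Functor.LaxMonoidal.μ_natural_right F U f)
  associativity X Y Z := ObjectProperty.hom_ext _ (Functor.LaxMonoidal.associativity F X Y Z)
  left_unitality X := ObjectProperty.hom_ext _ (Functor.LaxMonoidal.left_unitality F X)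
  right_unitality X := ObjectProperty.hom_ext _ (Functor.LaxMonoidal.right_unitality F X)

/-- The lift is monoidal. -/
noncomputable instance liftMon : (P.lift F h).Monoidal := (liftCore F P h).toMonoidal

end Lift

section Lift2

universe v₁ v₂ u₁ u₂

variable {C : Type u₁} [Category.{v₁} C] [MonoidalCategory C] [BraidedCategory C]
  {D : Type u₂} [Category.{v₂} D] [MonoidalCategory D] [BraidedCategory D] (F : C ⥤ D)
  [F.Braided] (P : ObjectProperty D) [P.IsMonoidal] (h : ∀ X, P (F.obj X))

/-- The lift is braided. -/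
noncomputable instance liftBraided : (P.lift F h).Braided where
  braided X Y := ObjectProperty.hom_ext _ (Functor.LaxBraided.braided X Y)

end Lift2

variable {k : Type u} [Field k] [CharP k 3]

variable {ω : k} (hω : ω ^ 5 = 1) (hω1 : ω ≠ 1)

/-- The functor to the semisimplification. -/
noncomputable def FF : FDRep k D5 ⥤ Semi k 3 1 1 := (theSys hω hω1).F ⋙ Ebar

noncomputable instance : (FF hω hω1).Braided :=
  inferInstanceAs ((theSys hω hω1).F ⋙ Ebar).Braided

instance : (FF hω hω1).Full := inferInstanceAs ((theSys hω hω1).F ⋙ Ebar).Full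

instance : (FF hω hω1).Faithful := inferInstanceAs ((theSys hω hω1).F ⋙ Ebar).Faithful

theorem FF_mem (W : FDRep k D5) : DV (newObj (md k 2)) ((FF hω hω1).obj W) :=
  gen_of_old (BC.mem_generated hω hω1 W)

theorem FF_surj {X : Semi k 3 1 1} (hX : DV (newObj (md k 2)) X) :
    ∃ W : FDRep k D5, Nonempty ((FF hω hω1).obj W ≅ X) := by
  obtain ⟨Y, rfl⟩ := Ebar_surj X
  have h : BC.InGenerated (BC.bar (md k 2)) Y := old_of_gen hX Y rfl
  have i₀ : (theSys hω hω1).F.obj (BC.rhoF hω 2) ≅ BC.bar (md k 2) :=
    (theSys hω hω1).chartIso ((theSys hω hω1).hD (BC.rhoF hω 2))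
      (BC.gen_base_ok (BC.theBase hω hω1) (2 : Fin 4))
  obtain ⟨W, ⟨e⟩⟩ := BC.ess_image (theSys hω hω1).F (BC.bar (md k 2)) (BC.rhoF hω 2) i₀ h
  exact ⟨W, ⟨Ebar.mapIso e⟩⟩

theorem FF_lin (W W' : FDRep k D5) (c : k) (f g h : W ⟶ W') (H : h = f + c • g) :
    scomb k 3 1 1 _ _ c ((FF hω hω1).map f) ((FF hω hω1).map g) ((FF hω hω1).map h) := by
  rw [H]
  change scomb k 3 1 1 _ _ c (Ebar.map ((theSys hω hω1).F.map f))
    (Ebar.map ((theSys hω hω1).F.map g)) (Ebar.map ((theSys hω hω1).F.map (f + c • g)))
  rw [comb_map_iff, Functor.map_add, Functor.map_smul]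

include hω hω1 in
theorem main : IsInducedSymmetry (newObj (md k 2)) (DV (newObj (md k 2))) D5 where
  finite := inferInstance
  coprime := by
    rw [DihedralGroup.nat_card]
    decide
  le _ h := h
  equiv := by
    refine ⟨(DV (newObj (md k 2))).lift (FF hω hω1) (FF_mem hω hω1), liftBraided _ _ _,
      ?_, ?_⟩
    · have hess : ((DV (newObj (md k 2))).lift (FF hω hω1) (FF_mem hω hω1)).EssSurj :=
        ⟨fun X => by
          obtain ⟨W, ⟨e⟩⟩ := FF_surj hω hω1 X.property
          exact ⟨W, ⟨(DV (newObj (md k 2))).isoMk e⟩⟩⟩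
      exact { }
    · intro W W' c f g h H
      exact FF_lin hω hω1 W W' c f g h H

theorem indec (k : Type u) [Field k] [CharP k 3] : IsIndecomposable (newObj (md k 2)) := by
  obtain ⟨hne, hid⟩ := BC.indec k
  constructor
  · exact hne
  · intro e he
    obtain ⟨f, hf⟩ : ∃ f : Module.End k (md k 2).carrier, f = (oldHom e).lin := ⟨_, rfl⟩
    have hff : IsIdempotentElem f := by
      have h1 := congrArg (fun g => (oldHom g).lin) he
      rw [hf]
      exact h1
    have hx : f ∘ₗ (md k 2).x = (md k 2).x ∘ₗ f := by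
      rw [hf]
      exact (oldHom e).comm_x
    have hy : f ∘ₗ (md k 2).y = (md k 2).y ∘ₗ f := by
      rw [hf]
      exact (oldHom e).comm_y
    have hrx : ∀ v ∈ LinearMap.range f, (md k 2).x v ∈ LinearMap.range f ∧
        (md k 2).y v ∈ LinearMap.range f := by
      rintro v ⟨w, rfl⟩
      exact ⟨⟨(md k 2).x w, LinearMap.congr_fun hx w⟩, ⟨(md k 2).y w, LinearMap.congr_fun hy w⟩⟩
    have hkx : ∀ v ∈ LinearMap.ker f, (md k 2).x v ∈ LinearMap.ker f ∧
        (md k 2).y v ∈ LinearMap.ker f := by
      intro v hv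
      have hv0 : f v = 0 := hv
      constructor
      · change f ((md k 2).x v) = 0
        have h3 := LinearMap.congr_fun hx v
        rw [LinearMap.comp_apply, LinearMap.comp_apply, hv0, map_zero] at h3
        exact h3
      · change f ((md k 2).y v) = 0
        have h3 := LinearMap.congr_fun hy v
        rw [LinearMap.comp_apply, LinearMap.comp_apply, hv0, map_zero] at h3
        exact h3
    rcases hid (LinearMap.range f) (LinearMap.ker f) hrx hkx
      (LinearMap.IsIdempotentElem.isCompl hff) with h | h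
    · left
      have h2 : f = 0 := LinearMap.range_eq_bot.1 h
      rw [hf] at h2
      exact ObjectProperty.hom_ext _ (ModuleCat.hom_ext h2)
    · right
      have h2 : f = LinearMap.id := by
        refine LinearMap.ext fun v => ?_
        have h3 : f (f v - v) = 0 := by
          rw [map_sub, sub_eq_zero]
          exact LinearMap.congr_fun hff v
        exact sub_eq_zero.1 ((Submodule.eq_bot_iff _).1 h _ h3)
      apply oldHom_injective
      apply BC.AlphaRep.hom_ext
      rw [← hf, h2]
      rfl

end Pool.Agent.H29.BE
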