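import Pool.Agent.H29.BE.Laws
import Pool.Agent.H29.BE.Gnr

/-!
# Quotients of tensor categories

If a relation on the morphisms of a (braided) tensor category is stable under tensoring with an
object, the quotient category is a (braided) tensor category, with the tensor product of objects,
the associator, the unitors and the braiding of the original category.
-/

open CategoryTheory MonoidalCategory

universe v u

namespace Pool.Agent.H29.BE

/-- The relation `r` (more precisely its closure under composition) is stable under tensoring with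
an object. -/
class Stab {C : Type u} [Category.{v} C] [MonoidalCategory C] (r : HomRel C) : Prop where
  stabLeft : ∀ (X : C) {Y Z : C} (f g : Y ⟶ Z),
    HomRel.CompClosure r f g → HomRel.CompClosure r (X ◁ f) (X ◁ g)
  stabRight : ∀ {Y Z : C} (X : C) (f g : Y ⟶ Z),
    HomRel.CompClosure r f g → HomRel.CompClosure r (f ▷ X) (g ▷ X)

/-- A criterion. -/
theorem Stab.of {C : Type u} [Category.{v} C] [MonoidalCategory C] (r : HomRel C)
    (hl : ∀ (X : C) {Y Z : C} (f g : Y ⟶ Z), r f g → r (X ◁ f) (X ◁ g))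
    (hr : ∀ {Y Z : C} (X : C) (f g : Y ⟶ Z), r f g → r (f ▷ X) (g ▷ X)) : Stab r where
  stabLeft X {Y Z} f g h := by
    cases h with
    | intro _ _ a m₁ m₂ b h =>
      rw [whiskerLeft_comp, whiskerLeft_comp, whiskerLeft_comp, whiskerLeft_comp]
      exact .intro _ _ _ _ _ _ (hl X m₁ m₂ h)
  stabRight {Y Z} X f g h := by
    cases h with
    | intro _ _ a m₁ m₂ b h =>
      rw [comp_whiskerRight, comp_whiskerRight, comp_whiskerRight, comp_whiskerRight]
      exact .intro _ _ _ _ _ _ (hr X m₁ m₂ h)

namespace Qt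

variable {C : Type u} [Category.{v} C] [MonoidalCategory C] (r : HomRel C) [Stab r]

/-- Left whiskering. -/
def qwl (X : C) {Y Z : C} (f : (⟨Y⟩ : Quotient r) ⟶ ⟨Z⟩) : (⟨X ⊗ Y⟩ : Quotient r) ⟶ ⟨X ⊗ Z⟩ :=
  Quot.map (fun g => X ◁ g) (Stab.stabLeft X) f

/-- Right whiskering. -/
def qwr {Y Z : C} (f : (⟨Y⟩ : Quotient r) ⟶ ⟨Z⟩) (X : C) : (⟨Y ⊗ X⟩ : Quotient r) ⟶ ⟨Z ⊗ X⟩ :=
  Quot.map (fun g => g ▷ X) (Stab.stabRight X) f

/-- The tensor structure of the quotient category. -/
instance qmonStr : MonoidalCategoryStruct (Quotient r) where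
  tensorObj X Y := ⟨X.as ⊗ Y.as⟩
  tensorUnit := ⟨𝟙_ C⟩
  tensorHom {_ X' Y _} f g := qwr r f Y.as ≫ qwl r X'.as g
  whiskerLeft X _ _ f := qwl r X.as f
  whiskerRight f X := qwr r f X.as
  associator X Y Z := cI r (α_ X.as Y.as Z.as)
  leftUnitor X := cI r (λ_ X.as)
  rightUnitor X := cI r (ρ_ X.as)

theorem tensorHom_cl {X X' Y Y' : C} (f : X ⟶ X') (g : Y ⟶ Y') :
    cl r f ⊗ₘ cl r g = cl r (f ⊗ₘ g) :=
  congrArg (cl r) (MonoidalCategory.tensorHom_def f g).symm

theorem qlaws : Laws (Quotient r) where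
  tensorHomDef _ _ := rfl
  tensorId X Y := (tensorHom_cl r (𝟙 X.as) (𝟙 Y.as)).trans
    (congrArg (cl r) (id_tensorHom_id _ _))
  tensorComp f g f' g' := by
    obtain ⟨f, rfl⟩ := Quot.exists_rep f
    obtain ⟨g, rfl⟩ := Quot.exists_rep g
    obtain ⟨f', rfl⟩ := Quot.exists_rep f'
    obtain ⟨g', rfl⟩ := Quot.exists_rep g'
    have h1 := congrArg (cl r) (tensorHom_comp_tensorHom f g f' g')
    simp only [MonoidalCategory.tensorHom_def] at h1
    exact h1
  leftId X Y := congrArg (cl r) (whiskerLeft_id X.as Y.as)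
  rightId X Y := congrArg (cl r) (id_whiskerRight X.as Y.as)
  assocNat f g h := by
    obtain ⟨f, rfl⟩ := Quot.exists_rep f
    obtain ⟨g, rfl⟩ := Quot.exists_rep g
    obtain ⟨h, rfl⟩ := Quot.exists_rep h
    have h1 := congrArg (cl r) (associator_naturality f g h)
    simp only [MonoidalCategory.tensorHom_def] at h1
    exact h1
  leftNat f := by
    obtain ⟨f, rfl⟩ := Quot.exists_rep f
    exact congrArg (cl r) (leftUnitor_naturality f)
  rightNat f := by
    obtain ⟨f, rfl⟩ := Quot.exists_rep f
    exact congrArg (cl r) (rightUnitor_naturality f)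
  pent X Y Z W := congrArg (cl r) (pentagon X.as Y.as Z.as W.as)
  trian X Y := congrArg (cl r) (triangle X.as Y.as)

/-- The quotient category is a tensor category. -/
instance qmon : MonoidalCategory (Quotient r) := toMon (qlaws r)

variable [BraidedCategory C]

theorem qblaws : BLaws (fun X Y : Quotient r => cI r (β_ X.as Y.as)) where
  natRight X _ _ f := by
    obtain ⟨f, rfl⟩ := Quot.exists_rep f
    exact congrArg (cl r) (BraidedCategory.braiding_naturality_right X.as f)
  natLeft f X := by
    obtain ⟨f, rfl⟩ := Quot.exists_rep f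
    exact congrArg (cl r) (BraidedCategory.braiding_naturality_left f X.as)
  hexF X Y Z := congrArg (cl r) (BraidedCategory.hexagon_forward X.as Y.as Z.as)
  hexR X Y Z := congrArg (cl r) (BraidedCategory.hexagon_reverse X.as Y.as Z.as)

/-- The quotient category is braided. -/
instance qbrd : BraidedCategory (Quotient r) := toBrd (qblaws r)

end Qt

end Pool.Agent.H29.BE
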