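import Pool.Agent.H29.BE.AlphaAux
import Pool.Agent.H29.BE.Qt

/-!
# The symmetric tensor category `rep(α_p(r,s))`
-/

open CategoryTheory MonoidalCategory

universe u

namespace Pool.Agent.H29.BE

/-- The category `rep(α_p(r,s))` of finite-dimensional representations. -/
def ARep (k : Type u) [Field k] (p r s : ℕ) : Type (u + 1) := (IsAlpha k p r s).FullSubcategory

instance arepCat (k : Type u) [Field k] (p r s : ℕ) : Category.{u} (ARep k p r s) :=
  ObjectProperty.FullSubcategory.category (IsAlpha k p r s)

theorem alpha_unit (k : Type u) [Field k] (p r s : ℕ) [CharP k p] [Fact p.Prime] :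
    IsAlpha k p r s (𝟙_ (XY (FGModuleCat.{u} k))) := alpha_unit_aux k p r s

theorem alpha_tensor (k : Type u) [Field k] (p r s : ℕ) [CharP k p] [Fact p.Prime]
    (M N : XY (FGModuleCat.{u} k)) (hM : IsAlpha k p r s M) (hN : IsAlpha k p r s N) :
    IsAlpha k p r s (M ⊗ N) := alpha_tensor_aux k p r s M N hM hN

instance alphaMon (k : Type u) [Field k] (p r s : ℕ) [CharP k p] [Fact p.Prime] :
    (IsAlpha k p r s).IsMonoidal where
  prop_unit := alpha_unit k p r s
  prop_tensor := alpha_tensor k p r s

instance arepMon (k : Type u) [Field k] (p r s : ℕ) [CharP k p] [Fact p.Prime] :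
    MonoidalCategory (ARep k p r s) :=
  ObjectProperty.fullMonoidalSubcategory (IsAlpha k p r s)

instance arepBrd (k : Type u) [Field k] (p r s : ℕ) [CharP k p] [Fact p.Prime] :
    BraidedCategory (ARep k p r s) :=
  ObjectProperty.fullBraidedSubcategory (IsAlpha k p r s)

/-- The underlying vector space. -/
def sp {k : Type u} [Field k] {p r s : ℕ} (M : ARep k p r s) : FGModuleCat.{u} k :=
  XY.spc (ObjectProperty.FullSubcategory.obj M)

/-- The linear map underlying a morphism of representations. -/
def lin {k : Type u} [Field k] {p r s : ℕ} {M N : ARep k p r s} (f : M ⟶ N) : sp M ⟶ sp N :=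
  XY.Mor.mor (InducedCategory.Hom.hom f)

/-- The dimension of a vector space. -/
noncomputable def dimv {k : Type u} [Field k] (V : FGModuleCat.{u} k) : ℕ := Module.finrank k V

/-- The trace of an endomorphism of a vector space. -/
noncomputable def trv {k : Type u} [Field k] {V : FGModuleCat.{u} k} (f : V ⟶ V) : k :=
  LinearMap.trace k V f.hom.hom

/-- The trace of an endomorphism of a representation. -/
noncomputable def tr (k : Type u) [Field k] (p r s : ℕ) (M : ARep k p r s) (f : M ⟶ M) : k :=
  trv (lin f)

end Pool.Agent.H29.BE
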