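import Pool.Agent.H29.BE.Cnv
import Pool.Agent.H29.BC.Semi

/-!
# Comparison of the two models of `rep(α_p(r,s))`
-/

open CategoryTheory MonoidalCategory
open scoped TensorProduct

universe u

namespace Pool.Agent.H29.BE

open BC (AlphaRep)

variable {k : Type u} [Field k] {p r s : ℕ}

theorem oldHom_injective {M N : ARep k p r s} {f g : M ⟶ N} (h : oldHom f = oldHom g) : f = g :=
  congrArg newHom h

/-- The comparison functor on objects. -/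
def newObj (A : AlphaRep k p r s) : ARep k p r s where
  obj := ⟨FGModuleCat.of k A.carrier, ![FGModuleCat.ofHom A.x, FGModuleCat.ofHom A.y]⟩
  property := (isAlpha_iff p r s _).2 ⟨A.comm, A.x_pow, A.y_pow⟩

theorem old_newObj (A : AlphaRep k p r s) : old (newObj A) = A := rfl

theorem newObj_old (M : ARep k p r s) : newObj (old M) = M := by
  have h : (![FGModuleCat.ofHom (ac M 0).hom.hom, FGModuleCat.ofHom (ac M 1).hom.hom] :
      Fin 2 → (sp M ⟶ sp M)) = ac M := by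
    funext i
    fin_cases i <;> rfl
  have h1 : (newObj (old M)).obj = M.obj := congrArg (XY.mk (sp M)) h
  exact (ObjectProperty.FullSubcategory.ext h1 : newObj (old M) = M)

/-- The comparison functor. -/
def E : AlphaRep k p r s ⥤ ARep k p r s where
  obj A := newObj A
  map {A B} f := newHom (M := newObj A) (N := newObj B) f
  map_id _ := rfl
  map_comp _ _ := rfl

theorem oldHom_map {A B : AlphaRep k p r s} (f : A ⟶ B) : oldHom (E.map f) = f := rfl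

variable [CharP k p] [Fact p.Prime]

/-- The tensor structure of the comparison functor. -/
noncomputable def Eμ (A B : AlphaRep k p r s) : newObj A ⊗ newObj B ≅ newObj (A ⊗ B) where
  hom := newHom (M := newObj A ⊗ newObj B) (N := newObj (A ⊗ B)) (𝟙 (A ⊗ B))
  inv := newHom (N := newObj A ⊗ newObj B) (M := newObj (A ⊗ B)) (𝟙 (A ⊗ B))
  hom_inv_id := rfl
  inv_hom_id := rfl

/-- The unit of the comparison functor. -/
noncomputable def Eε : 𝟙_ (ARep k p r s) ≅ newObj (𝟙_ (AlphaRep k p r s)) where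
  hom := newHom (M := 𝟙_ (ARep k p r s)) (N := newObj (𝟙_ (AlphaRep k p r s)))
    (𝟙 (𝟙_ (AlphaRep k p r s)))
  inv := newHom (N := 𝟙_ (ARep k p r s)) (M := newObj (𝟙_ (AlphaRep k p r s)))
    (𝟙 (𝟙_ (AlphaRep k p r s)))
  hom_inv_id := rfl
  inv_hom_id := rfl

theorem E_left {A A' : AlphaRep k p r s} (f : A ⟶ A') (B : AlphaRep k p r s) :
    E.map f ▷ newObj B ≫ (Eμ A' B).hom = (Eμ A B).hom ≫ E.map (f ▷ B) := by
  apply oldHom_injective
  change (f ▷ B) ≫ 𝟙 (A' ⊗ B) = 𝟙 (A ⊗ B) ≫ (f ▷ B)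
  simp

theorem E_right {A A' : AlphaRep k p r s} (B : AlphaRep k p r s) (f : A ⟶ A') :
    newObj B ◁ E.map f ≫ (Eμ B A').hom = (Eμ B A).hom ≫ E.map (B ◁ f) := by
  apply oldHom_injective
  change (B ◁ f) ≫ 𝟙 (B ⊗ A') = 𝟙 (B ⊗ A) ≫ (B ◁ f)
  simp

theorem E_assoc (A B D : AlphaRep k p r s) :
    (Eμ A B).hom ▷ newObj D ≫ (Eμ (A ⊗ B) D).hom ≫ E.map (α_ A B D).hom =
      (α_ (newObj A) (newObj B) (newObj D)).hom ≫ newObj A ◁ (Eμ B D).hom ≫
        (Eμ A (B ⊗ D)).hom := by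
  apply oldHom_injective
  change (𝟙 (A ⊗ B) ▷ D) ≫ 𝟙 ((A ⊗ B) ⊗ D) ≫ (α_ A B D).hom =
    (α_ A B D).hom ≫ (A ◁ 𝟙 (B ⊗ D)) ≫ 𝟙 (A ⊗ (B ⊗ D))
  simp

theorem E_lu (A : AlphaRep k p r s) :
    (λ_ (newObj A)).hom = Eε.hom ▷ newObj A ≫ (Eμ (𝟙_ _) A).hom ≫ E.map (λ_ A).hom := by
  apply oldHom_injective
  change (λ_ A).hom = (𝟙 (𝟙_ (AlphaRep k p r s)) ▷ A) ≫ 𝟙 (𝟙_ _ ⊗ A) ≫ (λ_ A).hom
  simp

theorem E_ru (A : AlphaRep k p r s) :
    (ρ_ (newObj A)).hom = newObj A ◁ Eε.hom ≫ (Eμ A (𝟙_ _)).hom ≫ E.map (ρ_ A).hom := by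
  apply oldHom_injective
  change (ρ_ A).hom = (A ◁ 𝟙 (𝟙_ (AlphaRep k p r s))) ≫ 𝟙 (A ⊗ 𝟙_ _) ≫ (ρ_ A).hom
  simp

theorem E_braid (A B : AlphaRep k p r s) :
    (Eμ A B).hom ≫ E.map (β_ A B).hom = (β_ (newObj A) (newObj B)).hom ≫ (Eμ B A).hom := by
  apply oldHom_injective
  change 𝟙 (A ⊗ B) ≫ (β_ A B).hom = (β_ A B).hom ≫ 𝟙 (B ⊗ A)
  simp

end Pool.Agent.H29.BE
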