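import Pool.Agent.H29.BE.Tr
import Pool.Agent.H29.BE.Def

/-!
# Comparison of the two models of the semisimplification
-/

open CategoryTheory MonoidalCategory
open scoped TensorProduct

universe u

namespace Pool.Agent.H29.BE

open BC (AlphaRep)

variable {k : Type u} [Field k] {p r s : ℕ}

/-- The image of a representation in the semisimplification. -/
def bar (A : ARep k p r s) : Semi k p r s := CategoryTheory.Quotient.mk A

/-- The image of a morphism in the semisimplification. -/
def cls {A B : ARep k p r s} (f : A ⟶ B) : bar A ⟶ bar B := cl (Ngl (tr k p r s)) f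

/-- The relations agree. -/
theorem negl_map {A B : AlphaRep k p r s} (f g : A ⟶ B) :
    Ngl (tr k p r s) (E.map f) (E.map g) ↔ BC.neglRel k p r s f g :=
  negl_iff _ _

/-- The comparison functor of the semisimplifications. -/
def Ebar : BC.Semi k p r s ⥤ Semi k p r s :=
  CategoryTheory.Quotient.lift (BC.neglRel k p r s)
    (E ⋙ Quotient.functor (Ngl (tr k p r s))) (fun A B f g h => by
      exact CategoryTheory.Quotient.sound (Ngl (tr k p r s)) ((negl_map f g).2 h))

theorem Ebar_obj (A : AlphaRep k p r s) : Ebar.obj (BC.bar A) = bar (newObj A) := rfl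

theorem Ebar_map {A B : AlphaRep k p r s} (f : A ⟶ B) :
    Ebar.map ((Quotient.functor (BC.neglRel k p r s)).map f) = cls (E.map f) := rfl

theorem cls_surj {M N : ARep k p r s} (f : bar M ⟶ bar N) : ∃ g : M ⟶ N, cls g = f := by
  obtain ⟨g, h⟩ := Quot.exists_rep f
  exact ⟨g, h⟩

theorem cls_comp {M N L : ARep k p r s} (f : M ⟶ N) (g : N ⟶ L) :
    cls (f ≫ g) = cls f ≫ cls g := rfl

theorem compClosure_negl {M N : ARep k p r s} {f g : M ⟶ N}
    (h : HomRel.CompClosure (Ngl (tr k p r s)) f g) : Ngl (tr k p r s) f g := by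
  cases h with
  | intro _ _ a m₁ m₂ b h =>
    rw [negl_iff] at h ⊢
    simp only [oldHom_comp]
    rw [← Preadditive.comp_sub, ← Preadditive.sub_comp]
    exact BC.AlphaRep.Negligible.comp_left _ (BC.AlphaRep.Negligible.comp_right _ h)

theorem negl_equiv (M N : ARep k p r s) : Equivalence (@Ngl _ _ _ (tr k p r s) M N) where
  refl _ _ := rfl
  symm h h' := (h h').symm
  trans h₁ h₂ h' := (h₁ h').trans (h₂ h')

theorem cls_eq_iff {M N : ARep k p r s} (f g : M ⟶ N) : cls f = cls g ↔ Ngl (tr k p r s) f g := by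
  constructor
  · intro h
    have h1 := Quot.eqvGen_exact h
    have h2 : ∀ a b : M ⟶ N, Relation.EqvGen (@HomRel.CompClosure _ _ (Ngl (tr k p r s)) M N) a b →
        Ngl (tr k p r s) a b := by
      intro a b hab
      induction hab with
      | rel x y hxy => exact compClosure_negl hxy
      | refl x => exact (negl_equiv M N).refl x
      | symm x y _ ih => exact (negl_equiv M N).symm ih
      | trans x y z _ _ ih1 ih2 => exact (negl_equiv M N).trans ih1 ih2
    exact h2 f g h1
  · intro h
    exact CategoryTheory.Quotient.sound (Ngl (tr k p r s)) h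

instance : (Ebar (k := k) (p := p) (r := r) (s := s)).Full where
  map_surjective {X Y} f := by
    obtain ⟨g, hg⟩ := Quot.exists_rep f
    exact ⟨(Quotient.functor (BC.neglRel k p r s)).map (oldHom g), hg⟩

instance : (Ebar (k := k) (p := p) (r := r) (s := s)).Faithful where
  map_injective {X Y} f g h := by
    obtain ⟨f, rfl⟩ := Quot.exists_rep f
    obtain ⟨g, rfl⟩ := Quot.exists_rep g
    have h1 : cls (E.map f) = cls (E.map g) := h
    rw [cls_eq_iff, negl_map] at h1
    exact CategoryTheory.Quotient.sound (BC.neglRel k p r s) h1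

theorem Ebar_surj (X : Semi k p r s) : ∃ Y, Ebar.obj Y = X :=
  ⟨BC.bar (old (Quotient.as X)), congrArg bar (newObj_old (Quotient.as X))⟩

variable [CharP k p] [Fact p.Prime]

/-- The tensor structure. -/
noncomputable def Ebarμ (X Y : BC.Semi k p r s) : Ebar.obj X ⊗ Ebar.obj Y ≅ Ebar.obj (X ⊗ Y) :=
  cI (Ngl (tr k p r s)) (Eμ (Quotient.as X) (Quotient.as Y))

/-- The unit. -/
noncomputable def Ebarε : 𝟙_ (Semi k p r s) ≅ Ebar.obj (𝟙_ (BC.Semi k p r s)) :=
  cI (Ngl (tr k p r s)) Eε

/-- The tensor structure. -/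
noncomputable def Ebarcore : (Ebar (k := k) (p := p) (r := r) (s := s)).CoreMonoidal where
  εIso := Ebarε
  μIso X Y := Ebarμ X Y
  μIso_hom_natural_left {X Y} f Z := by
    obtain ⟨f, rfl⟩ := Quot.exists_rep f
    exact congrArg cls (E_left f (Quotient.as Z))
  μIso_hom_natural_right {X Y} Z f := by
    obtain ⟨f, rfl⟩ := Quot.exists_rep f
    exact congrArg cls (E_right (Quotient.as Z) f)
  associativity X Y Z := congrArg cls (E_assoc (Quotient.as X) (Quotient.as Y) (Quotient.as Z))
  left_unitality X := congrArg cls (E_lu (Quotient.as X))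
  right_unitality X := congrArg cls (E_ru (Quotient.as X))

noncomputable instance : (Ebar (k := k) (p := p) (r := r) (s := s)).Monoidal :=
  Ebarcore.toMonoidal

theorem Ebar_braid (X Y : BC.Semi k p r s) :
    (Ebarμ X Y).hom ≫ Ebar.map (β_ X Y).hom = (β_ (Ebar.obj X) (Ebar.obj Y)).hom ≫
      (Ebarμ Y X).hom :=
  congrArg cls (E_braid (Quotient.as X) (Quotient.as Y))

noncomputable instance : (Ebar (k := k) (p := p) (r := r) (s := s)).Braided where
  braided X Y := Ebar_braid X Y

end Pool.Agent.H29.BE
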