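import Pool.Agent.H29.BE.Tr2
import Pool.Agent.H29.BC.Ess

/-!
# Comparison of the two models of `𝒟(V)`
-/

open CategoryTheory MonoidalCategory
open scoped TensorProduct

universe u

namespace Pool.Agent.H29.BE

open BC (AlphaRep)

variable {k : Type u} [Field k] {p r s : ℕ}

theorem comb_map {X Y : BC.Semi k p r s} (c : k) (f g : X ⟶ Y) :
    scomb k p r s _ _ c (Ebar.map f) (Ebar.map g) (Ebar.map (f + c • g)) := by
  obtain ⟨f, rfl⟩ := Quot.exists_rep f
  obtain ⟨g, rfl⟩ := Quot.exists_rep g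
  exact ⟨E.map f, E.map g, E.map (f + c • g), rfl, rfl, rfl,
    ObjectProperty.hom_ext _ (ModuleCat.hom_ext (LinearMap.ext fun v => rfl))⟩

theorem comb_map_iff {X Y : BC.Semi k p r s} (c : k) (f g h : X ⟶ Y) :
    scomb k p r s _ _ c (Ebar.map f) (Ebar.map g) (Ebar.map h) ↔ h = f + c • g := by
  constructor
  · rintro ⟨f', g', h', hf, hg, hh, H⟩
    have hf' : Ebar.map ((Quotient.functor (BC.neglRel k p r s)).map (oldHom f')) = Ebar.map f := hf
    have hg' : Ebar.map ((Quotient.functor (BC.neglRel k p r s)).map (oldHom g')) = Ebar.map g := hg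
    have hh' : Ebar.map ((Quotient.functor (BC.neglRel k p r s)).map (oldHom h')) = Ebar.map h := hh
    rw [← Ebar.map_injective hf', ← Ebar.map_injective hg', ← Ebar.map_injective hh']
    have h1 : oldHom h' = oldHom f' + c • oldHom g' :=
      BC.AlphaRep.hom_ext (congrArg (fun f : sp _ ⟶ sp _ => f.hom.hom) H)
    rw [h1]
    rfl
  · rintro rfl
    exact comb_map c f g

variable [CharP k p] [Fact p.Prime]

theorem gen_iso {V A B : Semi k p r s} (e : A ≅ B) (h : Gen (scomb k p r s) V B) : Gen (scomb k p r s) V A :=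
  Gen.summand e.hom e.inv e.hom_inv_id h

theorem gen_of_old {V X : BC.Semi k p r s} (h : BC.InGenerated V X) :
    Gen (scomb k p r s) (Ebar.obj V) (Ebar.obj X) := by
  induction h with
  | base => exact Gen.base
  | unit => exact gen_iso Ebarε.symm Gen.unit
  | tensor _ _ ih1 ih2 => exact gen_iso (Ebarμ _ _).symm (Gen.tensor _ _ ih1 ih2)
  | @dual A B _ h ih =>
    obtain ⟨h⟩ := h
    exact Gen.dual _ _ ih ⟨BC.Ess_pair Ebar A B⟩
  | sum i₁ i₂ p₁ p₂ h1 h2 h3 _ _ ih1 ih2 =>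
    refine Gen.sum _ _ _ ih1 ih2
      ⟨Ebar.map i₁, Ebar.map i₂, Ebar.map p₁, Ebar.map p₂, ?_, ?_, ?_⟩
    · rw [← Ebar.map_comp, h1, Ebar.map_id]
    · rw [← Ebar.map_comp, h2, Ebar.map_id]
    · rw [← Ebar.map_comp, ← Ebar.map_comp, ← Ebar.map_id, comb_map_iff, one_smul, h3]
  | summand i q h _ ih =>
    refine Gen.summand (Ebar.map i) (Ebar.map q) ?_ ih
    rw [← Ebar.map_comp, h, Ebar.map_id]

theorem old_iso {V A B : BC.Semi k p r s} (e : A ≅ B) (h : BC.InGenerated V B) :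
    BC.InGenerated V A :=
  BC.InGenerated.summand e.hom e.inv e.hom_inv_id h

theorem old_of_gen {V : BC.Semi k p r s} {X : Semi k p r s} (h : Gen (scomb k p r s) (Ebar.obj V) X) :
    ∀ Y : BC.Semi k p r s, Ebar.obj Y = X → BC.InGenerated V Y := by
  induction h with
  | base =>
    intro Y hY
    exact old_iso (Ebar.preimageIso (eqToIso hY)) BC.InGenerated.base
  | unit =>
    intro Y hY
    exact old_iso (Ebar.preimageIso (eqToIso hY ≪≫ Ebarε)) BC.InGenerated.unit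
  | tensor A B _ _ ih1 ih2 =>
    intro Y hY
    obtain ⟨A, rfl⟩ := Ebar_surj A
    obtain ⟨B, rfl⟩ := Ebar_surj B
    exact old_iso (Ebar.preimageIso (eqToIso hY ≪≫ Ebarμ A B))
      (BC.InGenerated.tensor (ih1 A rfl) (ih2 B rfl))
  | dual A B _ h ih =>
    intro Y hY
    obtain ⟨h⟩ := h
    obtain ⟨A, rfl⟩ := Ebar_surj A
    subst hY
    have h1 : ExactPairing (Ebar.obj A) (Ebar.obj Y) := h
    exact BC.InGenerated.dual (ih A rfl) ⟨ExactPairing.ofFullyFaithful Ebar A Y⟩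
  | sum A B S _ _ h ih1 ih2 =>
    intro Y hY
    obtain ⟨i₁, i₂, p₁, p₂, h1, h2, h3⟩ := h
    obtain ⟨A, rfl⟩ := Ebar_surj A
    obtain ⟨B, rfl⟩ := Ebar_surj B
    subst hY
    obtain ⟨i₁, rfl⟩ := Ebar.map_surjective i₁
    obtain ⟨i₂, rfl⟩ := Ebar.map_surjective i₂
    obtain ⟨p₁, rfl⟩ := Ebar.map_surjective p₁
    obtain ⟨p₂, rfl⟩ := Ebar.map_surjective p₂
    rw [← Ebar.map_comp, ← Ebar.map_id] at h1 h2
    rw [← Ebar.map_comp, ← Ebar.map_comp, ← Ebar.map_id, comb_map_iff, one_smul] at h3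
    exact BC.InGenerated.sum i₁ i₂ p₁ p₂ (Ebar.map_injective h1) (Ebar.map_injective h2) h3.symm
      (ih1 A rfl) (ih2 B rfl)
  | @summand A B i q h _ ih =>
    intro Y hY
    obtain ⟨B, rfl⟩ := Ebar_surj B
    subst hY
    obtain ⟨i, rfl⟩ := Ebar.map_surjective i
    obtain ⟨q, rfl⟩ := Ebar.map_surjective q
    rw [← Ebar.map_comp, ← Ebar.map_id] at h
    exact BC.InGenerated.summand i q (Ebar.map_injective h) (ih B rfl)

end Pool.Agent.H29.BE
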