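import Pool.Agent.H29.BE.Laws

/-!
# Objects with two endomorphisms

Let `C` be a preadditive tensor category.  `XY C` is the category of objects `V` of `C` with two
endomorphisms `x = act 0`, `y = act 1`; morphisms commute with `x` and `y`.  On a tensor product
`x` and `y` act as primitive elements: `x` acts by `x ⊗ 1 + 1 ⊗ x`, and the same for `y`.
-/

open CategoryTheory MonoidalCategory

universe v u

namespace Pool.Agent.H29.BE

/-- An object of `C` with two endomorphisms. -/
structure XY (C : Type u) [Category.{v} C] where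
  /-- the underlying object -/
  spc : C
  /-- the action of `x` and of `y` -/
  act : Fin 2 → (spc ⟶ spc)

namespace XY

section

variable {C : Type u} [Category.{v} C]

/-- A morphism commutes with `x` and `y`. -/
@[ext]
structure Mor (A B : XY C) where
  /-- the underlying morphism -/
  mor : A.spc ⟶ B.spc
  comm : ∀ i, A.act i ≫ mor = mor ≫ B.act i

theorem idd_comm (A : XY C) (i : Fin 2) : A.act i ≫ 𝟙 A.spc = 𝟙 A.spc ≫ A.act i := by
  rw [Category.comp_id, Category.id_comp]

/-- The identity. -/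
def idd (A : XY C) : Mor A A := ⟨𝟙 A.spc, idd_comm A⟩

theorem cmp_comm {A B D : XY C} (f : Mor A B) (g : Mor B D) (i : Fin 2) :
    A.act i ≫ f.mor ≫ g.mor = (f.mor ≫ g.mor) ≫ D.act i := by
  rw [← Category.assoc, f.comm, Category.assoc, g.comm, Category.assoc]

/-- The composition. -/
def cmp {A B D : XY C} (f : Mor A B) (g : Mor B D) : Mor A D := ⟨f.mor ≫ g.mor, cmp_comm f g⟩

theorem idd_cmp {A B : XY C} (f : Mor A B) : cmp (idd A) f = f := Mor.ext (Category.id_comp _)

theorem cmp_idd {A B : XY C} (f : Mor A B) : cmp f (idd B) = f := Mor.ext (Category.comp_id _)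

theorem cmp_cmp {A B D E : XY C} (f : Mor A B) (g : Mor B D) (h : Mor D E) :
    cmp (cmp f g) h = cmp f (cmp g h) := Mor.ext (Category.assoc _ _ _)

instance cat : Category (XY C) where
  Hom A B := Mor A B
  id A := idd A
  comp f g := cmp f g
  id_comp := idd_cmp
  comp_id := cmp_idd
  assoc := cmp_cmp

@[ext]
theorem hom_ext {A B : XY C} {f g : A ⟶ B} (h : f.mor = g.mor) : f = g := Mor.ext h

theorem comp_hom {A B D : XY C} (f : A ⟶ B) (g : B ⟶ D) :
    (f ≫ g).mor = f.mor ≫ g.mor := rfl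

/-- `e` commutes with `x` and `y`. -/
def Comm (A B : XY C) (e : A.spc ≅ B.spc) : Prop := ∀ i, A.act i ≫ e.hom = e.hom ≫ B.act i

theorem inv_comm {A B : XY C} {e : A.spc ≅ B.spc} (h : Comm A B e) (i : Fin 2) :
    B.act i ≫ e.inv = e.inv ≫ A.act i := by
  rw [Iso.comp_inv_eq, Category.assoc, h, Iso.inv_hom_id_assoc]

theorem hom_inv {A B : XY C} {f : Mor A B} {g : Mor B A} (h : f.mor ≫ g.mor = 𝟙 A.spc) :
    cmp f g = idd A := Mor.ext h

/-- An isomorphism from an isomorphism commuting with `x` and `y`. -/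
def mkIso {A B : XY C} {e : A.spc ≅ B.spc} (h : Comm A B e) : A ≅ B where
  hom := ⟨e.hom, h⟩
  inv := ⟨e.inv, inv_comm h⟩
  hom_inv_id := hom_inv e.hom_inv_id
  inv_hom_id := hom_inv e.inv_hom_id

end

variable {C : Type u} [Category.{v} C] [Preadditive C] [MonoidalCategory C]

/-- The operator `a ⊗ 1 + 1 ⊗ b`. -/
def prim {V W : C} (a : V ⟶ V) (b : W ⟶ W) : V ⊗ W ⟶ V ⊗ W := a ▷ W + V ◁ b

/-- The tensor product: the operators `x ⊗ 1 + 1 ⊗ x` and `y ⊗ 1 + 1 ⊗ y`. -/
def tens (A B : XY C) : XY C := ⟨A.spc ⊗ B.spc, fun i => prim (A.act i) (B.act i)⟩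

variable (C) in
/-- The unit object. -/
def one : XY C := ⟨𝟙_ C, 0⟩

theorem wl_comm (A : XY C) {B D : XY C} (f : Mor B D) (i : Fin 2) :
    (tens A B).act i ≫ A.spc ◁ f.mor = A.spc ◁ f.mor ≫ (tens A D).act i := by
  change (A.act i ▷ B.spc + A.spc ◁ B.act i) ≫ _ = _ ≫ (A.act i ▷ D.spc + A.spc ◁ D.act i)
  rw [Preadditive.add_comp, Preadditive.comp_add, whisker_exchange, ← whiskerLeft_comp, f.comm,
      whiskerLeft_comp]

theorem wr_comm {A D : XY C} (f : Mor A D) (B : XY C) (i : Fin 2) :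
    (tens A B).act i ≫ f.mor ▷ B.spc = f.mor ▷ B.spc ≫ (tens D B).act i := by
  change (A.act i ▷ B.spc + A.spc ◁ B.act i) ≫ _ = _ ≫ (D.act i ▷ B.spc + D.spc ◁ B.act i)
  rw [Preadditive.add_comp, Preadditive.comp_add, ← whisker_exchange, ← comp_whiskerRight,
      f.comm, comp_whiskerRight]

/-- Left whiskering. -/
def wl (A : XY C) {B D : XY C} (f : Mor B D) : Mor (tens A B) (tens A D) :=
  ⟨A.spc ◁ f.mor, wl_comm A f⟩

/-- Right whiskering. -/
def wr {A D : XY C} (f : Mor A D) (B : XY C) : Mor (tens A B) (tens D B) :=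
  ⟨f.mor ▷ B.spc, wr_comm f B⟩

variable [MonoidalPreadditive C]

theorem asso_comm (A B D : XY C) :
    Comm (tens (tens A B) D) (tens A (tens B D)) (α_ A.spc B.spc D.spc) := fun i => by
  change ((A.act i ▷ B.spc + A.spc ◁ B.act i) ▷ D.spc + (A.spc ⊗ B.spc) ◁ D.act i) ≫ _ =
    _ ≫ (A.act i ▷ (B.spc ⊗ D.spc) + A.spc ◁ (B.act i ▷ D.spc + B.spc ◁ D.act i))
  simp [Preadditive.add_comp, Preadditive.comp_add, add_assoc]

theorem lu_comm (A : XY C) : Comm (tens (one C) A) A (λ_ A.spc) := fun i => by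
  change ((0 : 𝟙_ C ⟶ 𝟙_ C) ▷ A.spc + 𝟙_ C ◁ A.act i) ≫ (λ_ A.spc).hom = (λ_ A.spc).hom ≫ A.act i
  simp

theorem ru_comm (A : XY C) : Comm (tens A (one C)) A (ρ_ A.spc) := fun i => by
  change (A.act i ▷ 𝟙_ C + A.spc ◁ (0 : 𝟙_ C ⟶ 𝟙_ C)) ≫ (ρ_ A.spc).hom = (ρ_ A.spc).hom ≫ A.act i
  simp

/-- The tensor structure: the associator and the unitors are those of `C`. -/
instance monStr : MonoidalCategoryStruct (XY C) where
  tensorObj A B := tens A B
  tensorUnit := one C
  tensorHom {_ A' B _} f g := cmp (wr f B) (wl A' g)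
  whiskerLeft A _ _ f := wl A f
  whiskerRight f A := wr f A
  associator A B D := mkIso (asso_comm A B D)
  leftUnitor A := mkIso (lu_comm A)
  rightUnitor A := mkIso (ru_comm A)

theorem tensorHom_hom {A A' B B' : XY C} (f : A ⟶ A') (g : B ⟶ B') :
    (f ⊗ₘ g).mor = f.mor ⊗ₘ g.mor :=
  (MonoidalCategory.tensorHom_def f.mor g.mor).symm

theorem laws : Laws (XY C) where
  tensorHomDef _ _ := rfl
  tensorId A B := hom_ext ((tensorHom_hom _ _).trans (id_tensorHom_id A.spc B.spc))
  tensorComp f₁ f₂ g₁ g₂ := by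
    apply hom_ext
    rw [tensorHom_hom, comp_hom, tensorHom_hom, tensorHom_hom]
    exact MonoidalCategory.tensorHom_comp_tensorHom f₁.mor f₂.mor g₁.mor g₂.mor
  leftId A B := hom_ext (MonoidalCategory.whiskerLeft_id A.spc B.spc)
  rightId A B := hom_ext (MonoidalCategory.id_whiskerRight A.spc B.spc)
  assocNat f₁ f₂ f₃ := by
    apply hom_ext
    rw [comp_hom, comp_hom, tensorHom_hom, tensorHom_hom, tensorHom_hom, tensorHom_hom]
    exact MonoidalCategory.associator_naturality f₁.mor f₂.mor f₃.mor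
  leftNat f := hom_ext (MonoidalCategory.leftUnitor_naturality f.mor)
  rightNat f := hom_ext (MonoidalCategory.rightUnitor_naturality f.mor)
  pent A B C D := hom_ext (MonoidalCategory.pentagon A.spc B.spc C.spc D.spc)
  trian A B := hom_ext (MonoidalCategory.triangle A.spc B.spc)

/-- `XY C` is a tensor category. -/
instance mon : MonoidalCategory (XY C) := toMon laws

variable [BraidedCategory C]

theorem braid_comm (A B : XY C) : Comm (tens A B) (tens B A) (β_ A.spc B.spc) := fun i => by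
  change (A.act i ▷ B.spc + A.spc ◁ B.act i) ≫ _ = _ ≫ (B.act i ▷ A.spc + B.spc ◁ A.act i)
  rw [Preadditive.add_comp, Preadditive.comp_add, BraidedCategory.braiding_naturality_left,
    BraidedCategory.braiding_naturality_right, add_comm]

/-- The braiding is that of `C`. -/
def braid (A B : XY C) : A ⊗ B ≅ B ⊗ A := mkIso (braid_comm A B)

theorem blaws : BLaws (C := XY C) braid where
  natRight A _ _ f := hom_ext (BraidedCategory.braiding_naturality_right A.spc f.mor)
  natLeft f A := hom_ext (BraidedCategory.braiding_naturality_left f.mor A.spc)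
  hexF A B C := hom_ext (BraidedCategory.hexagon_forward A.spc B.spc C.spc)
  hexR A B C := hom_ext (BraidedCategory.hexagon_reverse A.spc B.spc C.spc)

/-- `XY C` is braided. -/
instance brd : BraidedCategory (XY C) := toBrd blaws

end XY

end Pool.Agent.H29.BE
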